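import Mathlib
import Pool.Agent.Helper669.VFinal
import Pool.Agent.V8H48.PK.Neg

set_option autoImplicit false

/-!
# The polarized relation for `ℵ₂ × ℵ₃` with `ℵ₁` below is independent of ZFC + GCH

The forcing relation is the one of `Pool.Agent.Helper669.Forcing`: a sentence of the forcing
language is represented by the set of the conditions which force it, and a name for a subset of a
ground model set `X` is a map `X → Set P`. `PolarizedRel P K M W` says that for all
`c : K × M → 2` there are `A ⊆ K` of the size of `K` and `B ⊆ M` of the size of `W` such that `c` is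
constant on `A × B`; `ForcesGCH` is GCH in the extension.

* From GCH and a huge cardinal `κ` with target `m`: some forcing notion makes `κ` into `ℵ₂` and `m`
  into `ℵ₃` and forces GCH and the relation.
* From GCH alone: some forcing notion preserves all cardinals and GCH and forces the negation of
  the relation. (Conditions are matrices of size `ℵ₁` with `ℵ₁` many promises; each promise is a set
  of `ℵ₁` columns which will not be constant on any new row.)
-/

namespace Pool.Agent.Results.MP_9ed2bb_lc.Independent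

open Cardinal Pool.Agent.Helper669.Forcing Pool.Agent.Helper669.K Pool.Agent.Helper669.U
  Pool.Agent.Helper669.V

/-- Neither the relation `(ℵ₂, ℵ₃) → ((ℵ₂, ℵ₂), (ℵ₁, ℵ₁))` nor its negation follows from
ZFC + GCH. -/
theorem result (hGCH : ∀ ν : Cardinal.{0}, ℵ₀ ≤ ν → 2 ^ ν = Order.succ ν) :
    -- the relation can be forced, with GCH, from a huge cardinal
    (∀ κ m : Cardinal.{0}, IsHuge κ m →
      ∃ (P : Type) (_ : Preorder P), Nonempty P ∧ ∀ p : P,
        p ∈ ForcesGCH P ∧
        p ∈ StaysRegular P ℵ₁ ∧ p ∈ StaysRegular P κ ∧ p ∈ StaysRegular P m ∧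
        p ∈ CollapsedTo P ℵ₁ κ ∧ p ∈ CollapsedTo P κ m ∧
        p ∈ PolarizedRel P κ.ord.ToType m.ord.ToType (ℵ₁ : Cardinal.{0}).ord.ToType) ∧
    -- its negation can be forced, with GCH
    (∃ (P : Type) (_ : Preorder P), Nonempty P ∧ ∀ p : P,
        p ∈ ForcesGCH P ∧
        (∀ μ : Cardinal.{0}, μ.IsRegular → p ∈ StaysRegular P μ) ∧
        p ∈ fnot (PolarizedRel P (ℵ_ 2 : Cardinal.{0}).ord.ToType (ℵ_ 3 : Cardinal.{0}).ord.ToType
          (ℵ_ 1 : Cardinal.{0}).ord.ToType)) := by
  constructor
  · intro κ m h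
    obtain ⟨P, i, h1, h2⟩ := huge_iteration_gch h hGCH
    refine ⟨P, i, h1, fun p => ?_⟩
    obtain ⟨a, b, c, d, e, f, -, g⟩ := h2 p
    exact ⟨f, a, b, c.2 m c.1 le_rfl, d, e, g⟩
  · have e2 : Order.succ (ℵ_ 1 : Cardinal.{0}) = ℵ_ 2 := by
      rw [succ_aleph, one_add_one_eq_two]
    have e3 : Order.succ (ℵ_ 2 : Cardinal.{0}) = ℵ_ 3 := by
      rw [succ_aleph]
      norm_num
    obtain ⟨P, i, h1, h2⟩ := Pool.Agent.V8H48.PN.main (ℵ_ 1) (aleph0_le_aleph 1) hGCH
    rw [e2, e3] at h2
    exact ⟨P, i, h1, fun p => ⟨(h2 p).2.1, (h2 p).1, (h2 p).2.2⟩⟩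

end Pool.Agent.Results.MP_9ed2bb_lc.Independent
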